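import Mathlib

namespace Pool.Agent.Results.MP_9df05e_al.Counter

/-- p-conjugacy for the product m: a = uv and b = vu with u, v in the semigroup with an identity
adjoined; a factor equal to the identity gives a = b. -/
def PConj {T : Type} (m : T → T → T) (a b : T) : Prop :=
  a = b ∨ ∃ u v, a = m u v ∧ b = m v u

/-- the relation is transitive -/
def Trans {T : Type} (r : T → T → Prop) : Prop := ∀ a b c, r a b → r b c → r a c

/-- 0 is the zero, 1 2 = 4, 2 1 = 1 3 = 5, 3 1 = 6, all other products are 0 -/
def mul (x y : Fin 7) : Fin 7 :=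
  if x = 1 ∧ y = 2 then 4 else if x = 2 ∧ y = 1 then 5 else if x = 1 ∧ y = 3 then 5
  else if x = 3 ∧ y = 1 then 6 else 0

theorem triple : ∀ x a y : Fin 7, mul (mul x a) y = 0 ∧ mul x (mul a y) = 0 := by decide

theorem result : ∃ (S : Type) (_ : Semigroup S),
    (∀ a : S, Trans (PConj fun x y : S => x * a * y)) ∧ ¬ Trans (PConj fun x y : S => x * y) := by
  let inst : Semigroup (Fin 7) :=
    { mul := mul, mul_assoc := fun x a y => ((triple x a y).1).trans (triple x a y).2.symm }
  refine ⟨Fin 7, inst, fun a => ?_, fun h => ?_⟩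
  · have key : ∀ x y : Fin 7, PConj (fun x y => mul (mul x a) y) x y → x = y := by
      rintro x y (h | ⟨u, v, h1, h2⟩)
      · exact h
      · exact (h1.trans (triple u a v).1).trans (h2.trans (triple v a u).1).symm
    intro x y z h1 h2
    exact Or.inl ((key x y h1).trans (key y z h2))
  · have h1 : PConj mul 4 6 := h 4 5 6 (Or.inr ⟨1, 2, rfl, rfl⟩) (Or.inr ⟨1, 3, rfl, rfl⟩)
    revert h1
    unfold PConj
    decide

end Pool.Agent.Results.MP_9df05e_al.Counter
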